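import Mathlib

/-!
A regular CIS graph `G` such that `G` and its complement are connected, well-covered and
irreducible, but `G` is not vertex-transitive.
-/

namespace Pool.Agent.Results.MP_509871_co.NotTransitive

open Finset

variable {V I U : Type*}

/-- `K` is a maximal clique of `G`. -/
def MaxClique (G : SimpleGraph V) (K : Finset V) : Prop :=
  Maximal (fun K : Finset V => G.IsClique (K : Set V)) K

/-- `S` is a maximal stable set of `G`. -/
def MaxStable (G : SimpleGraph V) (S : Finset V) : Prop :=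
  Maximal (fun S : Finset V => G.IsIndepSet (S : Set V)) S

/-- Every maximal clique meets every maximal stable set. -/
def CIS (G : SimpleGraph V) : Prop :=
  ∀ K S : Finset V, MaxClique G K → MaxStable G S → ∃ v, v ∈ K ∧ v ∈ S

/-- All maximal stable sets have the same size. -/
def WellCovered (G : SimpleGraph V) : Prop :=
  ∃ m : ℕ, ∀ S : Finset V, MaxStable G S → S.card = m

/-- Distinct vertices have distinct neighbourhoods. -/
def Irreducible (G : SimpleGraph V) : Prop :=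
  ∀ u v : V, u ≠ v → G.neighborSet u ≠ G.neighborSet v

/-- The automorphism group is transitive on vertices. -/
def VertexTransitive (G : SimpleGraph V) : Prop := ∀ u v : V, ∃ f : G ≃g G, f u = v

/-! ### Cliques and substitution -/

/-- `K` is a clique, in elementary terms -/
def Clq (G : SimpleGraph V) (K : Finset V) : Prop := ∀ a ∈ K, ∀ b ∈ K, a ≠ b → G.Adj a b

/-- maximal clique inside `F` -/
def MaxIn (G : SimpleGraph V) (F K : Finset V) : Prop :=
  K ⊆ F ∧ Clq G K ∧ ∀ v ∈ F, v ∉ K → ∃ a ∈ K, ¬ G.Adj a v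

theorem maxClique_iff [DecidableEq V] [Fintype V] (G : SimpleGraph V) (K : Finset V) :
    MaxClique G K ↔ MaxIn G univ K := by
  constructor
  · rintro ⟨h1, h2⟩
    have h1' : Clq G K := fun a ha b hb hab => h1 (mem_coe.2 ha) (mem_coe.2 hb) hab
    refine ⟨subset_univ _, h1', ?_⟩
    intro v _ hv
    by_contra hcon
    push Not at hcon
    apply hv
    have h3 : G.IsClique ((insert v K : Finset V) : Set V) := by
      intro a ha b hb hab
      rw [mem_coe, mem_insert] at ha hb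
      rcases ha with rfl | ha
      · rcases hb with rfl | hb
        · exact absurd rfl hab
        · exact (hcon b hb).symm
      · rcases hb with rfl | hb
        · exact hcon a ha
        · exact h1' a ha b hb hab
    exact h2 h3 (subset_insert v K) (mem_insert_self v K)
  · rintro ⟨-, h1, h2⟩
    refine ⟨fun a ha b hb hab => h1 a (mem_coe.1 ha) b (mem_coe.1 hb) hab, ?_⟩
    intro K' hK' hle v hv
    by_contra hvK
    obtain ⟨a, ha, hav⟩ := h2 v (mem_univ v) hvK
    exact hav (hK' (mem_coe.2 (hle ha)) (mem_coe.2 hv) (by rintro rfl; exact hvK ha))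

theorem maxStable_iff [DecidableEq V] [Fintype V] (G : SimpleGraph V) (K : Finset V) :
    MaxStable G K ↔ MaxIn Gᶜ univ K := by
  rw [← maxClique_iff]
  unfold MaxStable MaxClique
  simp only [SimpleGraph.isClique_compl]

section substitution

set_option linter.unusedSectionVars false

variable [DecidableEq V] [Fintype V] [DecidableEq I] [Fintype I]

/-- `G` arises from `Γ` by substituting graphs for its vertices, with projection `π`. -/
def Sub (G : SimpleGraph V) (Γ : SimpleGraph I) (π : V → I) : Prop :=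
  (∀ i, ∃ v, π v = i) ∧ ∀ u v, π u ≠ π v → (G.Adj u v ↔ Γ.Adj (π u) (π v))

theorem Sub.compl {G : SimpleGraph V} {Γ : SimpleGraph I} {π : V → I} (h : Sub G Γ π) :
    Sub Gᶜ Γᶜ π := by
  refine ⟨h.1, fun u v huv => ?_⟩
  rw [SimpleGraph.compl_adj, SimpleGraph.compl_adj, h.2 u v huv]
  constructor
  · rintro ⟨-, h2⟩; exact ⟨huv, h2⟩
  · rintro ⟨-, h2⟩
    refine ⟨?_, h2⟩
    rintro rfl
    exact huv rfl

theorem Sub.maxIn {G : SimpleGraph V} {Γ : SimpleGraph I} {π : V → I} (h : Sub G Γ π)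
    {K : Finset V} (hK : MaxIn G univ K) :
    MaxIn Γ univ (K.image π) ∧ ∀ i ∈ K.image π,
      MaxIn G (univ.filter (fun v => π v = i)) (K.filter (fun v => π v = i)) := by
  obtain ⟨-, h1, h2⟩ := hK
  refine ⟨⟨subset_univ _, ?_, ?_⟩, ?_⟩
  · intro a ha b hb hab
    rw [mem_image] at ha hb
    obtain ⟨u, hu, rfl⟩ := ha
    obtain ⟨v, hv, rfl⟩ := hb
    rw [← h.2 u v hab]
    exact h1 u hu v hv (fun huv => hab (by rw [huv]))
  · intro i _ hi
    obtain ⟨v, rfl⟩ := h.1 i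
    have hvK : v ∉ K := fun hv => hi (mem_image_of_mem π hv)
    obtain ⟨a, ha, hav⟩ := h2 v (mem_univ v) hvK
    refine ⟨π a, mem_image_of_mem π ha, ?_⟩
    rw [← h.2 a v]
    · exact hav
    · intro hav'
      exact hi (hav' ▸ mem_image_of_mem π ha)
  · intro i hi
    refine ⟨?_, ?_, ?_⟩
    · intro x hx
      rw [mem_filter] at hx ⊢
      exact ⟨mem_univ x, hx.2⟩
    · intro a ha b hb hab
      exact h1 a (mem_filter.1 ha).1 b (mem_filter.1 hb).1 hab
    · intro v hv hvK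
      rw [mem_filter] at hv
      have hvK' : v ∉ K := fun hvK' => hvK (mem_filter.2 ⟨hvK', hv.2⟩)
      obtain ⟨a, ha, hav⟩ := h2 v (mem_univ v) hvK'
      by_cases hai : π a = i
      · exact ⟨a, mem_filter.2 ⟨ha, hai⟩, hav⟩
      · exfalso
        obtain ⟨b, hb, hbi⟩ := mem_image.1 hi
        have hne : π a ≠ π b := by rw [hbi]; exact hai
        have h3 := (h.2 a b hne).1 (h1 a ha b hb (fun hab => hne (by rw [hab])))
        apply hav
        rw [h.2 a v (by rw [hv.2]; exact hai), hv.2, ← hbi]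
        exact h3

theorem Sub.card {G : SimpleGraph V} {Γ : SimpleGraph I} {π : V → I} (h : Sub G Γ π)
    {K : Finset V} (hK : MaxIn G univ K) (w : I → ℕ)
    (hw : ∀ i, ∀ L, MaxIn G (univ.filter (fun v => π v = i)) L → L.card = w i) :
    K.card = ∑ i ∈ K.image π, w i := by
  rw [card_eq_sum_card_image π K]
  refine sum_congr rfl fun i hi => ?_
  exact hw i _ ((h.maxIn hK).2 i hi)

theorem Sub.cis {G : SimpleGraph V} {Γ : SimpleGraph I} {π : V → I} (h : Sub G Γ π)
    (h1 : ∀ K S, MaxIn Γ univ K → MaxIn Γᶜ univ S → ∃ v, v ∈ K ∧ v ∈ S)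
    (h2 : ∀ i, ∀ K S, MaxIn G (univ.filter (fun v => π v = i)) K →
      MaxIn Gᶜ (univ.filter (fun v => π v = i)) S → ∃ v, v ∈ K ∧ v ∈ S) :
    ∀ K S, MaxIn G univ K → MaxIn Gᶜ univ S → ∃ v, v ∈ K ∧ v ∈ S := by
  intro K S hK hS
  have h3 := h.maxIn hK
  have h4 := h.compl.maxIn hS
  obtain ⟨i, hi1, hi2⟩ := h1 _ _ h3.1 h4.1
  obtain ⟨v, hv1, hv2⟩ := h2 i _ _ (h3.2 i hi1) (h4.2 i hi2)
  exact ⟨v, (mem_filter.1 hv1).1, (mem_filter.1 hv2).1⟩

end substitution

/-! ### The rook graph `K₃ □ K₃` -/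

/-- The rook graph `K₃ □ K₃`. -/
def X : SimpleGraph (Fin 3 × Fin 3) where
  Adj x y := x ≠ y ∧ (x.1 = y.1 ∨ x.2 = y.2)
  symm := by
    constructor
    rintro x y ⟨h1, h2⟩
    exact ⟨h1.symm, h2.imp Eq.symm Eq.symm⟩
  loopless := by
    constructor
    rintro x ⟨h1, -⟩
    exact h1 rfl

instance : DecidableRel X.Adj := fun x y =>
  inferInstanceAs (Decidable (x ≠ y ∧ (x.1 = y.1 ∨ x.2 = y.2)))

instance (G : SimpleGraph V) [DecidableEq V] [DecidableRel G.Adj] (F K : Finset V) :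
    Decidable (MaxIn G F K) := by
  unfold MaxIn Clq
  infer_instance

theorem X_clique : ∀ K, MaxIn X univ K → K.card = 3 := by decide +kernel

theorem X_stable : ∀ K, MaxIn Xᶜ univ K → K.card = 3 ∧
    ∑ i ∈ K, (if i.2 = 2 then 4 else 3) = 10 := by decide +kernel

theorem X_cis : ∀ K, MaxIn X univ K → ∀ S, MaxIn Xᶜ univ S → ∃ v, v ∈ K ∧ v ∈ S := by
  decide +kernel

/-! ### The graph on 60 vertices -/

/-- row of the cell of `v` -/
def row (v : Fin 60) : Fin 3 := if v.val < 20 then 0 else if v.val < 40 then 1 else 2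

/-- column of the cell of `v` -/
def col (v : Fin 60) : Fin 3 := if v.val % 20 < 6 then 0 else if v.val % 20 < 12 then 1 else 2

/-- cell of `v` -/
def cell (v : Fin 60) : Fin 3 × Fin 3 := (row v, col v)

/-- Substitute `K_{3,3}` for the cells in columns `0, 1` and `4 K₂` for those in column `2` of the
rook graph `K₃ □ K₃`. -/
def g60 (u v : Fin 60) : Prop :=
  (cell u ≠ cell v ∧ (row u = row v ∨ col u = col v)) ∨
  (cell u = cell v ∧ col u ≠ 2 ∧ (u.val % 20 % 6) / 3 ≠ (v.val % 20 % 6) / 3) ∨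
  (cell u = cell v ∧ col u = 2 ∧ u ≠ v ∧ (u.val % 20) / 2 = (v.val % 20) / 2)

instance : DecidableRel g60 := fun u v => by unfold g60; infer_instance

/-- The graph on 60 vertices. -/
def Γ : SimpleGraph (Fin 60) where
  Adj := g60
  symm := by
    constructor
    have h : ∀ u v, g60 u v → g60 v u := by decide +kernel
    exact h
  loopless := by
    constructor
    have h : ∀ u, ¬ g60 u u := by decide +kernel
    exact h

instance : DecidableRel Γ.Adj := inferInstanceAs (DecidableRel g60)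

/-- the fibre over a cell -/
def fib (i : Fin 3 × Fin 3) : Finset (Fin 60) := univ.filter (fun v => cell v = i)

theorem sub_Γ : Sub Γ X cell := by
  unfold Sub
  decide +kernel

/-! Cells: complete multipartite graphs and their complements. -/

theorem multi_clique {G : SimpleGraph V} [DecidableEq V] {F : Finset V} {s : V → ℕ}
    (hs : ∀ u ∈ F, ∀ v ∈ F, u ≠ v → (G.Adj u v ↔ s u ≠ s v)) {L : Finset V} (hL : MaxIn G F L) :
    L.image s = F.image s ∧ L.card = (F.image s).card := by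
  obtain ⟨h0, h1, h2⟩ := hL
  have h3 : L.image s = F.image s := by
    apply Subset.antisymm (image_subset_image h0)
    intro j hj
    obtain ⟨v, hv, rfl⟩ := mem_image.1 hj
    by_contra hcon
    have hvL : v ∉ L := fun h => hcon (mem_image_of_mem s h)
    obtain ⟨a, ha, hav⟩ := h2 v hv hvL
    apply hav
    rw [hs a (h0 ha) v hv (by rintro rfl; exact hvL ha)]
    intro h
    exact hcon (h ▸ mem_image_of_mem s ha)
  refine ⟨h3, ?_⟩
  rw [← h3, card_image_of_injOn]
  intro a ha b hb hab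
  by_contra hne
  exact (hs a (h0 ha) b (h0 hb) hne).1 (h1 a ha b hb hne) hab

theorem multi_stable {G : SimpleGraph V} [DecidableEq V] {F : Finset V} {s : V → ℕ}
    (hs : ∀ u ∈ F, ∀ v ∈ F, u ≠ v → (G.Adj u v ↔ s u ≠ s v)) (hF : F.Nonempty) {L : Finset V}
    (hL : MaxIn Gᶜ F L) : ∃ j ∈ F.image s, L = F.filter (fun v => s v = j) := by
  obtain ⟨h0, h1, h2⟩ := hL
  have hne : L.Nonempty := by
    rw [nonempty_iff_ne_empty]
    rintro rfl
    obtain ⟨v, hv⟩ := hF
    obtain ⟨a, ha, -⟩ := h2 v hv (by simp)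
    simp at ha
  obtain ⟨u, hu⟩ := hne
  refine ⟨s u, mem_image_of_mem s (h0 hu), ?_⟩
  have h3 : ∀ v ∈ L, s v = s u := by
    intro v hv
    by_cases huv : v = u
    · rw [huv]
    · have h4 := h1 v hv u hu huv
      rw [SimpleGraph.compl_adj, hs v (h0 hv) u (h0 hu) huv] at h4
      tauto
  ext v
  rw [mem_filter]
  constructor
  · intro hv
    exact ⟨h0 hv, h3 v hv⟩
  · rintro ⟨hv, hvu⟩
    by_contra hvL
    obtain ⟨a, ha, hav⟩ := h2 v hv hvL
    have hne : a ≠ v := by rintro rfl; exact hvL ha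
    apply hav
    rw [SimpleGraph.compl_adj, hs a (h0 ha) v hv hne]
    refine ⟨hne, ?_⟩
    rw [h3 a ha, hvu]
    tauto

/-- side (in columns `0, 1`) or pair (in column `2`) of `v` inside its cell -/
def sd (v : Fin 60) : ℕ := if col v = 2 then (v.val % 20) / 2 else (v.val % 20 % 6) / 3

theorem hs1 : ∀ i : Fin 3 × Fin 3, i.2 ≠ 2 → ∀ u ∈ fib i, ∀ v ∈ fib i, u ≠ v →
    (Γ.Adj u v ↔ sd u ≠ sd v) := by decide +kernel

theorem hs2 : ∀ i : Fin 3 × Fin 3, i.2 = 2 → ∀ u ∈ fib i, ∀ v ∈ fib i, u ≠ v →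
    (Γᶜ.Adj u v ↔ sd u ≠ sd v) := by decide +kernel

theorem fib_card : ∀ i : Fin 3 × Fin 3, (fib i).Nonempty ∧
    ((fib i).image sd).card = (if i.2 = 2 then 4 else 2) ∧
    ∀ j ∈ (fib i).image sd, ((fib i).filter (fun v => sd v = j)).card =
      if i.2 = 2 then 2 else 3 := by decide +kernel

theorem fib_clique (i : Fin 3 × Fin 3) (L : Finset (Fin 60)) (hL : MaxIn Γ (fib i) L) :
    L.card = 2 := by
  by_cases hi : i.2 = 2
  · rw [← compl_compl Γ] at hL
    obtain ⟨j, hj, rfl⟩ := multi_stable (hs2 i hi) (fib_card i).1 hL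
    rw [(fib_card i).2.2 j hj, if_pos hi]
  · rw [(multi_clique (hs1 i hi) hL).2, (fib_card i).2.1, if_neg hi]

theorem fib_stable (i : Fin 3 × Fin 3) (L : Finset (Fin 60)) (hL : MaxIn Γᶜ (fib i) L) :
    L.card = if i.2 = 2 then 4 else 3 := by
  by_cases hi : i.2 = 2
  · rw [(multi_clique (hs2 i hi) hL).2, (fib_card i).2.1, if_pos hi, if_pos hi]
  · obtain ⟨j, hj, rfl⟩ := multi_stable (hs1 i hi) (fib_card i).1 hL
    rw [(fib_card i).2.2 j hj, if_neg hi, if_neg hi]

theorem fib_cis (i : Fin 3 × Fin 3) (K S : Finset (Fin 60)) (hK : MaxIn Γ (fib i) K)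
    (hS : MaxIn Γᶜ (fib i) S) : ∃ v, v ∈ K ∧ v ∈ S := by
  by_cases hi : i.2 = 2
  · rw [← compl_compl Γ] at hK
    obtain ⟨j, hj, hKj⟩ := multi_stable (hs2 i hi) (fib_card i).1 hK
    rw [← (multi_clique (hs2 i hi) hS).1] at hj
    obtain ⟨v, hv, hvj⟩ := mem_image.1 hj
    refine ⟨v, ?_, hv⟩
    rw [hKj, mem_filter]
    exact ⟨hS.1 hv, hvj⟩
  · obtain ⟨j, hj, hSj⟩ := multi_stable (hs1 i hi) (fib_card i).1 hS
    rw [← (multi_clique (hs1 i hi) hK).1] at hj
    obtain ⟨v, hv, hvj⟩ := mem_image.1 hj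
    refine ⟨v, hv, ?_⟩
    rw [hSj, mem_filter]
    exact ⟨hK.1 hv, hvj⟩

theorem Γ_clique (K : Finset (Fin 60)) (hK : MaxIn Γ univ K) : K.card = 6 := by
  have h := sub_Γ.card hK (fun _ => 2) (fun i L hL => fib_clique i L hL)
  rw [h, sum_const, X_clique _ (sub_Γ.maxIn hK).1]
  rfl

theorem Γ_stable (K : Finset (Fin 60)) (hK : MaxIn Γᶜ univ K) : K.card = 10 := by
  have h := sub_Γ.compl.card hK (fun i => if i.2 = 2 then 4 else 3)
    (fun i L hL => fib_stable i L hL)
  rw [h]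
  exact (X_stable _ (sub_Γ.compl.maxIn hK).1).2

theorem Γ_cis (K S : Finset (Fin 60)) (hK : MaxIn Γ univ K) (hS : MaxIn Γᶜ univ S) :
    ∃ v, v ∈ K ∧ v ∈ S :=
  sub_Γ.cis (fun K S hK hS => X_cis K hK S hS) (fun i K S hK hS => fib_cis i K S hK hS) K S hK hS

/-! ### The final graph -/

/-- The lexicographic product `Γ[K₃ □ K₃]`, on 540 vertices. -/
def G : SimpleGraph (Fin 60 × (Fin 3 × Fin 3)) where
  Adj x y := Γ.Adj x.1 y.1 ∨ (x.1 = y.1 ∧ X.Adj x.2 y.2)
  symm := by
    constructor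
    rintro x y (h | ⟨h1, h2⟩)
    · exact Or.inl h.symm
    · exact Or.inr ⟨h1.symm, h2.symm⟩
  loopless := by
    constructor
    rintro x (h | ⟨h1, h2⟩)
    · exact Γ.loopless.irrefl _ h
    · exact X.loopless.irrefl _ h2

instance : DecidableRel G.Adj := fun x y =>
  inferInstanceAs (Decidable (Γ.Adj x.1 y.1 ∨ (x.1 = y.1 ∧ X.Adj x.2 y.2)))

theorem sub_G : Sub G Γ Prod.fst := by
  refine ⟨fun i => ⟨(i, 0, 0), rfl⟩, fun u v huv => ?_⟩
  constructor
  · rintro (h | ⟨h1, -⟩)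
    · exact h
    · exact absurd h1 huv
  · exact Or.inl

theorem fst_fibre {G' : SimpleGraph (I × U)} {X' : SimpleGraph U} [DecidableEq I] [DecidableEq U]
    [Fintype I] [Fintype U] (i : I) (h : ∀ u u', G'.Adj (i, u) (i, u') ↔ X'.Adj u u')
    {K : Finset (I × U)} (hK : MaxIn G' (univ.filter (fun v => v.1 = i)) K) :
    MaxIn X' univ (K.image Prod.snd) ∧ K.card = (K.image Prod.snd).card ∧
      ∀ u, u ∈ K.image Prod.snd ↔ (i, u) ∈ K := by
  obtain ⟨h0, h1, h2⟩ := hK
  have h3 : ∀ x ∈ K, x.1 = i := fun x hx => (mem_filter.1 (h0 hx)).2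
  have h4 : ∀ u, u ∈ K.image Prod.snd ↔ (i, u) ∈ K := by
    intro u
    rw [mem_image]
    constructor
    · rintro ⟨⟨j, u'⟩, hx, rfl⟩
      have := h3 _ hx
      simp only at this
      subst this
      exact hx
    · intro hx
      exact ⟨_, hx, rfl⟩
  refine ⟨⟨subset_univ _, ?_, ?_⟩, ?_, h4⟩
  · intro a ha b hb hab
    rw [h4] at ha hb
    rw [← h]
    exact h1 _ ha _ hb (fun heq => hab (Prod.ext_iff.1 heq).2)
  · intro u _ hu
    rw [h4] at hu
    obtain ⟨⟨j, u'⟩, ha, hau⟩ := h2 (i, u) (mem_filter.2 ⟨mem_univ _, rfl⟩) hu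
    have := h3 _ ha
    simp only at this
    subst this
    refine ⟨u', (h4 u').2 ha, ?_⟩
    rwa [← h]
  · rw [card_image_of_injOn]
    intro a ha b hb hab
    exact Prod.ext ((h3 a ha).trans (h3 b hb).symm) hab

theorem G_fib (i : Fin 60) (u u' : Fin 3 × Fin 3) : G.Adj (i, u) (i, u') ↔ X.Adj u u' := by
  constructor
  · rintro (h | ⟨-, h⟩)
    · exact absurd h (Γ.loopless.irrefl i)
    · exact h
  · intro h
    exact Or.inr ⟨rfl, h⟩

theorem Gc_fib (i : Fin 60) (u u' : Fin 3 × Fin 3) : Gᶜ.Adj (i, u) (i, u') ↔ Xᶜ.Adj u u' := by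
  rw [SimpleGraph.compl_adj, SimpleGraph.compl_adj, G_fib, Ne, Prod.mk.injEq]
  tauto

theorem G_clique (K : Finset _) (hK : MaxIn G univ K) : K.card = 18 := by
  have h := sub_G.card hK (fun _ => 3) (fun i L hL => by
    have h1 := fst_fibre i (G_fib i) hL
    rw [h1.2.1]
    exact X_clique _ h1.1)
  rw [h, sum_const, Γ_clique _ (sub_G.maxIn hK).1]
  rfl

theorem G_stable (K : Finset _) (hK : MaxIn Gᶜ univ K) : K.card = 30 := by
  have h := sub_G.compl.card hK (fun _ => 3) (fun i L hL => by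
    have h1 := fst_fibre i (Gc_fib i) hL
    rw [h1.2.1]
    exact (X_stable _ h1.1).1)
  rw [h, sum_const, Γ_stable _ (sub_G.compl.maxIn hK).1]
  rfl

theorem G_cis (K S : Finset _) (hK : MaxIn G univ K) (hS : MaxIn Gᶜ univ S) :
    ∃ v, v ∈ K ∧ v ∈ S := by
  refine sub_G.cis Γ_cis ?_ K S hK hS
  intro i K S hK hS
  have h1 := fst_fibre i (G_fib i) hK
  have h2 := fst_fibre i (Gc_fib i) hS
  obtain ⟨u, hu1, hu2⟩ := X_cis _ h1.1 _ h2.1
  exact ⟨(i, u), (h1.2.2 u).1 hu1, (h2.2.2 u).1 hu2⟩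

/-! ### Regularity, connectedness, irreducibility -/

theorem Γ_deg : ∀ v : Fin 60, (univ.filter (fun w => Γ.Adj v w)).card = 29 := by decide +kernel

theorem X_deg : ∀ v : Fin 3 × Fin 3, (univ.filter (fun w => X.Adj v w)).card = 4 := by
  decide +kernel

theorem G_deg (x : Fin 60 × (Fin 3 × Fin 3)) : (univ.filter (fun y => G.Adj x y)).card = 265 := by
  obtain ⟨c, u⟩ := x
  have h1 : univ.filter (fun y => G.Adj (c, u) y) =
      (univ.filter (fun w => Γ.Adj c w)) ×ˢ univ ∪ {c} ×ˢ (univ.filter (fun w => X.Adj u w)) := by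
    ext ⟨d, w⟩
    simp only [mem_filter, mem_univ, true_and, mem_union, mem_product, mem_singleton, and_true]
    change (Γ.Adj c d ∨ (c = d ∧ X.Adj u w)) ↔ _
    tauto
  rw [h1, card_union_of_disjoint, card_product, card_product, Γ_deg, X_deg]
  · rfl
  · rw [disjoint_left]
    rintro ⟨d, w⟩ h2 h3
    rw [mem_product, mem_filter] at h2
    rw [mem_product, mem_singleton] at h3
    have h4 := h2.1.2
    rw [h3.1] at h4
    exact Γ.loopless.irrefl _ h4

theorem Γ_conn : ∀ c : Fin 60, ∃ e, Γ.Adj 0 e ∧ Γ.Adj e c := by decide +kernel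

theorem Γ_conn' : ∀ c : Fin 60, ∃ e, Γᶜ.Adj 0 e ∧ Γᶜ.Adj e c := by decide +kernel

theorem G_adj {c d : Fin 60} (u w : Fin 3 × Fin 3) (h : Γ.Adj c d) : G.Adj (c, u) (d, w) :=
  Or.inl h

theorem G_connected : G.Connected := by
  have : Nonempty (Fin 60 × (Fin 3 × Fin 3)) := ⟨(0, 0, 0)⟩
  have h : ∀ c u, G.Reachable (0, 0, 0) (c, u) := by
    intro c u
    obtain ⟨e, h1, h2⟩ := Γ_conn c
    exact (G_adj (0, 0) u h1).reachable.trans (G_adj u u h2).reachable
  refine { preconnected := ?_ }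
  rintro ⟨c, u⟩ ⟨d, w⟩
  exact (h c u).symm.trans (h d w)

theorem Gc_adj {c d : Fin 60} (u w : Fin 3 × Fin 3) (h : Γᶜ.Adj c d) : Gᶜ.Adj (c, u) (d, w) := by
  have hne : c ≠ d := h.ne
  rw [SimpleGraph.compl_adj] at h ⊢
  refine ⟨fun h' => hne (Prod.ext_iff.1 h').1, ?_⟩
  rintro (h1 | ⟨h1, -⟩)
  · exact h.2 h1
  · exact hne h1

theorem Gc_connected : Gᶜ.Connected := by
  have : Nonempty (Fin 60 × (Fin 3 × Fin 3)) := ⟨(0, 0, 0)⟩
  have h : ∀ c u, Gᶜ.Reachable (0, 0, 0) (c, u) := by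
    intro c u
    obtain ⟨e, h1, h2⟩ := Γ_conn' c
    exact (Gc_adj (0, 0) u h1).reachable.trans (Gc_adj u u h2).reachable
  refine { preconnected := ?_ }
  rintro ⟨c, u⟩ ⟨d, w⟩
  exact (h c u).symm.trans (h d w)

/-- irreducibility of a substitution of `X'` into all vertices -/
theorem irr {G' : SimpleGraph (I × U)} {X' : SimpleGraph U} {Γ' : SimpleGraph I}
    (h1 : ∀ i u u', G'.Adj (i, u) (i, u') ↔ X'.Adj u u')
    (h2 : ∀ i j u w, i ≠ j → (G'.Adj (i, u) (j, w) ↔ Γ'.Adj i j))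
    (h3 : ∀ u u', u ≠ u' → ∃ w, ¬ (X'.Adj u w ↔ X'.Adj u' w))
    (h4 : ∀ u, ∃ w, X'.Adj u w) : Irreducible G' := by
  rintro ⟨i, u⟩ ⟨j, w⟩ hne heq
  have h5 : ∀ z, G'.Adj (i, u) z ↔ G'.Adj (j, w) z := by
    intro z
    have := Set.ext_iff.1 heq z
    simpa [SimpleGraph.mem_neighborSet] using this
  by_cases hij : i = j
  · subst hij
    have huw : u ≠ w := fun h => hne (by rw [h])
    obtain ⟨v, hv⟩ := h3 u w huw
    apply hv
    rw [← h1 i, ← h1 i]
    exact h5 _
  · by_cases hadj : Γ'.Adj i j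
    · have h6 := (h5 (j, w)).1 ((h2 i j u w hij).2 hadj)
      exact G'.loopless.irrefl _ h6
    · obtain ⟨v, hv⟩ := h4 u
      have h6 := (h5 (i, v)).1 ((h1 i u v).2 hv)
      rw [h2 j i w v (Ne.symm hij)] at h6
      exact hadj h6.symm

theorem G_irr : Irreducible G := by
  refine irr (X' := X) (Γ' := Γ) G_fib ?_ (by decide +kernel) (by decide +kernel)
  intro i j u w hij
  exact sub_G.2 (i, u) (j, w) hij

theorem Gc_irr : Irreducible Gᶜ := by
  refine irr (X' := Xᶜ) (Γ' := Γᶜ) Gc_fib ?_ (by decide +kernel) (by decide +kernel)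
  intro i j u w hij
  exact sub_G.compl.2 (i, u) (j, w) hij

/-! ### Not vertex-transitive -/

/-- `x` has a non-adjacent vertex `y ≠ x` such that exactly `4` neighbours of `x` are not
neighbours of `y`. -/
def P (x : Fin 60 × (Fin 3 × Fin 3)) : Prop :=
  ∃ y, y ≠ x ∧ ¬ G.Adj x y ∧ (univ.filter (fun z => G.Adj x z ∧ ¬ G.Adj y z)).card = 4

theorem P_map (f : G ≃g G) {x : Fin 60 × (Fin 3 × Fin 3)} (h : P x) : P (f x) := by
  obtain ⟨y, h1, h2, h3⟩ := h
  refine ⟨f y, fun h => h1 (f.injective h), fun h => h2 (f.map_adj_iff.1 h), ?_⟩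
  rw [← h3, ← Fintype.card_subtype, ← Fintype.card_subtype]
  symm
  refine Fintype.card_congr (Equiv.subtypeEquiv f.toEquiv ?_)
  intro z
  change (G.Adj x z ∧ ¬ G.Adj y z) ↔ (G.Adj (f x) (f z) ∧ ¬ G.Adj (f y) (f z))
  rw [f.map_adj_iff, f.map_adj_iff]

theorem P_zero : P (0, 0, 0) := by
  refine ⟨(1, 0, 0), by decide +kernel, by decide +kernel, ?_⟩
  have h0 : ∀ d, Γ.Adj 0 d ↔ Γ.Adj 1 d := by decide +kernel
  have h1 : univ.filter (fun z => G.Adj (0, 0, 0) z ∧ ¬ G.Adj (1, 0, 0) z) =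
      {(0 : Fin 60)} ×ˢ (univ.filter (fun w => X.Adj (0, 0) w)) := by
    ext ⟨d, w⟩
    simp only [mem_filter, mem_univ, true_and, mem_product, mem_singleton]
    change ((Γ.Adj 0 d ∨ (0 = d ∧ X.Adj (0, 0) w)) ∧ ¬ (Γ.Adj 1 d ∨ (1 = d ∧ X.Adj (0, 0) w))) ↔ _
    have h2 := h0 d
    have h3 : Γ.Adj 1 d → d ≠ 0 := by
      rintro h rfl
      exact absurd h (by decide +kernel)
    have h4 : (1 : Fin 60) = d → d ≠ 0 := by
      rintro rfl
      decide
    constructor
    · rintro ⟨h5 | ⟨h5, h6⟩, h7⟩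
      · exact absurd (Or.inl (h2.1 h5)) h7
      · exact ⟨h5.symm, h6⟩
    · rintro ⟨rfl, h6⟩
      refine ⟨Or.inr ⟨rfl, h6⟩, ?_⟩
      rintro (h7 | ⟨h7, -⟩)
      · exact h3 h7 rfl
      · exact h4 h7 rfl
  rw [h1, card_product, X_deg]
  rfl

theorem not_P : ¬ P (12, 0, 0) := by
  rintro ⟨⟨c, u⟩, h1, h2, h3⟩
  by_cases hc : c = 12
  · subst hc
    have h4 : ∀ u, ¬ X.Adj (0, 0) u → u ≠ (0, 0) →
        (univ.filter (fun w => X.Adj (0, 0) w ∧ ¬ X.Adj u w)).card ≠ 4 := by decide +kernel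
    have hu : ¬ X.Adj (0, 0) u := fun h => h2 ((G_fib 12 (0, 0) u).2 h)
    have hu' : u ≠ (0, 0) := fun h => h1 (by rw [h])
    apply h4 u hu hu'
    rw [← h3]
    have h5 : univ.filter (fun z => G.Adj (12, 0, 0) z ∧ ¬ G.Adj (12, u) z) =
        {(12 : Fin 60)} ×ˢ (univ.filter (fun w => X.Adj (0, 0) w ∧ ¬ X.Adj u w)) := by
      ext ⟨d, w⟩
      simp only [mem_filter, mem_univ, true_and, mem_product, mem_singleton]
      by_cases hd : d = 12
      · subst hd
        rw [G_fib, G_fib]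
        simp
      · have e1 := sub_G.2 ((12 : Fin 60), (0 : Fin 3), (0 : Fin 3)) (d, w) (Ne.symm hd)
        have e2 := sub_G.2 ((12 : Fin 60), u) (d, w) (Ne.symm hd)
        rw [e1, e2]
        constructor
        · rintro ⟨a, b⟩; exact absurd a b
        · rintro ⟨a, -⟩; exact absurd a hd
    rw [h5, card_product, card_singleton, one_mul]
  · have h4 : ∀ c : Fin 60, c ≠ 12 → ¬ Γ.Adj 12 c → ∃ d, Γ.Adj 12 d ∧ ¬ Γ.Adj c d ∧ d ≠ c := by
      decide +kernel
    have h5 : ¬ Γ.Adj 12 c := fun h => h2 (Or.inl h)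
    obtain ⟨d, h6, h7, h8⟩ := h4 c hc h5
    have h9 : ({d} : Finset (Fin 60)) ×ˢ (univ : Finset (Fin 3 × Fin 3)) ⊆
        univ.filter (fun z => G.Adj (12, 0, 0) z ∧ ¬ G.Adj (c, u) z) := by
      rintro ⟨d', w⟩ hd
      rw [mem_product, mem_singleton] at hd
      simp only at hd
      rw [hd.1]
      simp only [mem_filter, mem_univ, true_and]
      refine ⟨?_, ?_⟩
      · exact G_adj (0, 0) w h6
      · intro h
        exact h7 ((sub_G.2 (c, u) (d, w) (Ne.symm h8)).1 h)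
    have h10 := card_le_card h9
    rw [h3, card_product, card_singleton] at h10
    have h11 : (univ : Finset (Fin 3 × Fin 3)).card = 9 := rfl
    rw [h11] at h10
    omega

/-- **Main theorem.** There is a regular CIS graph `G` such that `G` and its complement are both
connected, both well-covered and both irreducible, and `G` is not vertex-transitive. -/
theorem result : ∃ (V : Type) (_ : Fintype V) (G : SimpleGraph V) (_ : DecidableRel G.Adj) (d : ℕ),
    G.IsRegularOfDegree d ∧ CIS G ∧ G.Connected ∧ Gᶜ.Connected ∧ WellCovered G ∧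
      WellCovered Gᶜ ∧ Irreducible G ∧ Irreducible Gᶜ ∧ ¬ VertexTransitive G := by
  refine ⟨Fin 60 × (Fin 3 × Fin 3), inferInstance, G, inferInstance, 265, ?_, ?_, G_connected,
    Gc_connected, ⟨30, ?_⟩, ⟨18, ?_⟩, G_irr, Gc_irr, ?_⟩
  · intro v
    rw [SimpleGraph.degree, SimpleGraph.neighborFinset_eq_filter]
    exact G_deg v
  · intro K S hK hS
    rw [maxClique_iff] at hK
    rw [maxStable_iff] at hS
    exact G_cis K S hK hS
  · intro S hS
    rw [maxStable_iff] at hS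
    exact G_stable S hS
  · intro S hS
    rw [maxStable_iff, compl_compl] at hS
    exact G_clique S hS
  · intro h
    obtain ⟨f, hf⟩ := h (0, 0, 0) (12, 0, 0)
    have h1 := P_map f P_zero
    rw [hf] at h1
    exact not_P h1

end Pool.Agent.Results.MP_509871_co.NotTransitive
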